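import Pool.Agent.H59.L.S8.W418.S.Rank

set_option autoImplicit false
set_option linter.unusedVariables false

universe u

open Polynomial TensorProduct Pool.Agent.W558

namespace Pool.Agent.W418.SP

variable {k E : Type u} [Field k] [Field E] [Algebra k E]

/-- Tangent vectors of an algebraic separable point which kill the maximal ideal are zero. -/
lemma zero_of_ker [PerfectField k] {A : Type u} [CommRing A] [Algebra k A] {κ : Type u} [Field κ]
    [Algebra k κ] [Algebra.IsAlgebraic k κ] (φ : A →ₐ[k] κ) (hφ : Function.Surjective φ)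
    (D : TV φ) (hD : ∀ a, φ a = 0 → D.D a = 0) (a : A) : D.D a = 0 := by
  obtain ⟨F, hF⟩ := TV.desc φ hφ (AlgHom.id k κ) (fun a => rfl) D hD
  have h1 : Algebra.FormallyUnramified k κ := Algebra.FormallyUnramified.of_isSeparable k κ
  let D' : Derivation k κ κ :=
    { toFun := F.D
      map_add' := F.D.map_add
      map_smul' := F.D.map_smul
      map_one_eq_zero' := F.D_one
      leibniz' := by
        intro a b
        exact F.leib a b }
  rw [← hF a]
  change D' (φ a) = 0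
  rw [← D'.liftKaehlerDifferential_comp_D, Subsingleton.elim (KaehlerDifferential.D k κ (φ a)) 0,
    map_zero]

/-- Dual tangent vectors at a closed point. -/
lemma exists_dual [PerfectField k] {A : Type u} [CommRing A] [Algebra k A] {κ : Type u} [Field κ]
    [Algebra k κ] [Algebra.IsAlgebraic k κ] (φ : A →ₐ[k] κ) (hφ : Function.Surjective φ)
    (h : ∃ (a b : A) (D1 D2 : TV φ), D1.D a = 1 ∧ D1.D b = 0 ∧ D2.D a = 0 ∧ D2.D b = 1 ∧
      ∀ D : TV φ, D.D a = 0 → D.D b = 0 → ∀ c, D.D c = 0) :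
    ∃ (u v : A) (D1 D2 : TV φ), φ u = 0 ∧ φ v = 0 ∧ D1.D u = 1 ∧ D1.D v = 0 ∧ D2.D u = 0 ∧
      D2.D v = 1 ∧ ∀ D : TV φ, D.D u = 0 → D.D v = 0 → ∀ c, D.D c = 0 := by
  obtain ⟨a, b, D1, D2, h1, h2, h3, h4, h5⟩ := h
  have key : ∀ D : TV φ, (∃ c, D.D c ≠ 0) → ∃ u, φ u = 0 ∧ D.D u = 1 := by
    rintro D ⟨c, hc⟩
    obtain ⟨u, hu, hDu⟩ : ∃ u, φ u = 0 ∧ D.D u ≠ 0 := by
      by_contra hcon
      push Not at hcon
      exact hc (zero_of_ker φ hφ D hcon c)
    obtain ⟨s, hs⟩ := hφ (D.D u)⁻¹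
    refine ⟨s * u, by rw [map_mul, hu, mul_zero], ?_⟩
    rw [D.leib, hu, zero_mul, add_zero, hs, inv_mul_cancel₀ hDu]
  obtain ⟨u, hu, hu1⟩ := key D1 ⟨a, by rw [h1]; exact one_ne_zero⟩
  let F2 := TV.comb (-D2.D u) 1 D1 D2
  obtain ⟨v, hv, hv1⟩ := key F2 ⟨b, by rw [TV.comb_D, h2, h4]; simp⟩
  rw [TV.comb_D] at hv1
  refine ⟨u, v, TV.comb 1 (-D1.D v) D1 F2, F2, hu, hv, ?_, ?_, ?_, ?_, ?_⟩
  · rw [TV.comb_D, TV.comb_D, hu1]; ring
  · rw [TV.comb_D, TV.comb_D]; linear_combination -(D1.D v) * hv1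
  · rw [TV.comb_D, hu1]; ring
  · rw [TV.comb_D]; exact hv1
  · intro D hDu hDv c
    have e : ∀ c, D.D c = D.D a * D1.D c + D.D b * D2.D c := by
      intro c
      have := h5 (TV.comb 1 (-1) D (TV.comb (D.D a) (D.D b) D1 D2)) (by
        rw [TV.comb_D, TV.comb_D, h1, h3]; ring) (by
        rw [TV.comb_D, TV.comb_D, h2, h4]; ring) c
      rw [TV.comb_D, TV.comb_D] at this
      linear_combination this
    have e1 := e u
    have e2 := e v
    rw [hDu, hu1] at e1
    rw [hDv] at e2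
    have hb : D.D b = 0 := by
      linear_combination (D.D b) * (-hv1) + (-1 : κ) * e2 + (D1.D v) * e1
    have ha : D.D a = 0 := by
      rw [hb] at e1
      linear_combination -e1
    rw [e c, ha, hb]; ring

/-- The parameters generate the maximal ideal locally. -/
lemma exists_gen [PerfectField k] {A : Type u} [CommRing A] [Algebra k A] [Algebra.FiniteType k A]
    {κ : Type u} [Field κ] [Algebra k κ] (φ : A →ₐ[k] κ) (hφ : Function.Surjective φ)
    {u v : A} {D1 D2 : TV φ} (hu : φ u = 0) (hv : φ v = 0) (h1 : D1.D u = 1) (h2 : D1.D v = 0)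
    (h3 : D2.D u = 0) (h4 : D2.D v = 1)
    (h5 : ∀ D : TV φ, D.D u = 0 → D.D v = 0 → ∀ c, D.D c = 0) :
    ∃ g, φ g ≠ 0 ∧ ∀ x, φ x = 0 → g * x ∈ Ideal.span {u, v} := by
  let q : Ideal A := RingHom.ker φ
  have hq : q.IsPrime := RingHom.ker_isPrime φ
  have hN : IsNoetherianRing A := Algebra.FiniteType.isNoetherianRing k A
  let B := Localization.AtPrime q
  have hm : IsLocalRing.maximalIdeal B = q.map (algebraMap A B) :=
    (IsLocalization.AtPrime.map_eq_maximalIdeal q B).symm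
  have hNB : IsNoetherianRing B := IsLocalization.isNoetherianRing q.primeCompl B hN
  have key : IsLocalRing.maximalIdeal B ≤ (Ideal.span {u, v}).map (algebraMap A B) := by
    refine Submodule.le_of_le_smul_of_le_jacobson_bot (I := IsLocalRing.maximalIdeal B)
      (IsNoetherian.noetherian _) (IsLocalRing.maximalIdeal_le_jacobson _) ?_
    conv_lhs => rw [hm]
    rw [Ideal.map_le_iff_le_comap]
    intro x hx
    have hx0 : φ x = 0 := hx
    obtain ⟨c, hc⟩ := hφ (D1.D x)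
    obtain ⟨d, hd⟩ := hφ (D2.D x)
    let x' := x - c * u - d * v
    have hx' : φ x' = 0 := by
      change φ (x - c * u - d * v) = 0
      rw [map_sub, map_sub, map_mul, map_mul, hu, hv, hx0]; ring
    have hD1 : D1.D x' = 0 := by
      change D1.D (x - c * u - d * v) = 0
      rw [map_sub, map_sub, D1.leib, D1.leib, hu, hv, h1, h2, hc]; ring
    have hD2 : D2.D x' = 0 := by
      change D2.D (x - c * u - d * v) = 0
      rw [map_sub, map_sub, D2.leib, D2.leib, hu, hv, h3, h4, hd]; ring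
    have hall : ∀ D : TV φ, D.D x' = 0 := by
      intro D
      have := h5 (TV.comb 1 (-1) D (TV.comb (D.D u) (D.D v) D1 D2)) (by
        rw [TV.comb_D, TV.comb_D, h1, h3]; ring) (by
        rw [TV.comb_D, TV.comb_D, h2, h4]; ring) x'
      rw [TV.comb_D, TV.comb_D, hD1, hD2] at this
      linear_combination this
    obtain ⟨s, hs, hsx⟩ : ∃ s, φ s ≠ 0 ∧ s * x' ∈ RingHom.ker φ ^ 2 := by
      by_contra hcon
      push Not at hcon
      obtain ⟨D, hD, -⟩ := exists_TV φ ⊥ bot_le hx' (by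
        intro s hs
        rw [sup_bot_eq]
        exact hcon s hs)
      exact hD (hall D)
    rw [Ideal.mem_comap]
    have e : algebraMap A B x = algebraMap A B (c * u + d * v) + algebraMap A B x' := by
      rw [← map_add]
      congr 1
      change x = c * u + d * v + (x - c * u - d * v)
      ring
    rw [e]
    refine Submodule.add_mem_sup ?_ ?_
    · refine Ideal.mem_map_of_mem _ ?_
      exact Ideal.add_mem _ (Ideal.mul_mem_left _ _ (Ideal.subset_span (by simp)))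
        (Ideal.mul_mem_left _ _ (Ideal.subset_span (by simp)))
    · have h6 : algebraMap A B (s * x') ∈ (IsLocalRing.maximalIdeal B) ^ 2 := by
        rw [hm, ← Ideal.map_pow]
        exact Ideal.mem_map_of_mem _ hsx
      rw [map_mul] at h6
      have hsu : IsUnit (algebraMap A B s) := IsLocalization.map_units B
        (⟨s, hs⟩ : q.primeCompl)
      have h7 := (Ideal.unit_mul_mem_iff_mem _ hsu).1 h6
      rwa [pow_two] at h7
  have h6 : ∀ x ∈ q, ∃ s, φ s ≠ 0 ∧ s * x ∈ Ideal.span {u, v} := by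
    intro x hx
    have h7 : algebraMap A B x ∈ (Ideal.span {u, v}).map (algebraMap A B) := by
      apply key
      rw [hm]
      exact Ideal.mem_map_of_mem _ hx
    rw [IsLocalization.algebraMap_mem_map_algebraMap_iff q.primeCompl] at h7
    obtain ⟨s, hs, h8⟩ := h7
    exact ⟨s, hs, h8⟩
  classical
  obtain ⟨S, hS⟩ := (IsNoetherian.noetherian q : q.FG)
  choose! g hg hg' using h6
  refine ⟨∏ x ∈ S, g x, ?_, ?_⟩
  · rw [map_prod, Finset.prod_ne_zero_iff]
    intro x hx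
    exact hg x (by rw [← hS]; exact Ideal.subset_span hx)
  · intro x hx
    have hx' : x ∈ Ideal.span (S : Set A) := by
      have : x ∈ q := hx
      rwa [← hS] at this
    induction hx' using Submodule.span_induction with
    | mem y hy =>
      rw [← Finset.prod_erase_mul S g hy, mul_assoc]
      exact Ideal.mul_mem_left _ _ (hg' y (by rw [← hS]; exact Ideal.subset_span hy))
    | zero => rw [mul_zero]; exact Ideal.zero_mem _
    | add y z hy' hz' hy hz =>
      have hk : ∀ y ∈ Submodule.span A (S : Set A), φ y = 0 := fun y hy => by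
        have : y ∈ q := by rw [← hS]; exact hy
        exact this
      rw [mul_add]
      exact Ideal.add_mem _ (hy (hk y hy')) (hz (hk z hz'))
    | smul a y hy' hy =>
      have hk : ∀ y ∈ Submodule.span A (S : Set A), φ y = 0 := fun y hy => by
        have : y ∈ q := by rw [← hS]; exact hy
        exact this
      rw [smul_eq_mul, mul_left_comm]
      exact Ideal.mul_mem_left _ _ (hy (hk y hy'))

/-- Derivations with nonzero determinant. -/
lemma exists_ders {A : Type u} [CommRing A] [Algebra k A] [Algebra.Smooth k A]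
    {κ : Type u} [Field κ] [Algebra k κ] (φ : A →ₐ[k] κ)
    {u v : A} {D1 D2 : TV φ} (hu : φ u = 0) (hv : φ v = 0) (h1 : D1.D u = 1) 
    (h3 : D2.D u = 0) (h4 : D2.D v = 1) :
    ∃ d1 d2 : Derivation k A A, φ (d1 u * d2 v - d1 v * d2 u) ≠ 0 := by
  obtain ⟨d1, hd1⟩ := exists_der φ D1 (f := u) (by rw [h1]; exact one_ne_zero)
  obtain ⟨d2, hd2⟩ := exists_der φ D2 (f := d1 u * v - d1 v * u) (by
    rw [map_sub, D2.leib, D2.leib, hu, hv, h3, h4]
    simpa using hd1)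
  refine ⟨d1, d2, ?_⟩
  intro h0
  apply hd2
  rw [map_sub, Derivation.leibniz, Derivation.leibniz, smul_eq_mul, smul_eq_mul, smul_eq_mul,
    smul_eq_mul]
  simp only [map_sub, map_add, map_mul, hu, hv] at h0 ⊢
  linear_combination h0

/-- The tangent vector of a derivation. -/
def ofDer {A : Type u} [CommRing A] [Algebra k A] {κ : Type u} [Field κ] [Algebra k κ]
    (φ : A →ₐ[k] κ) (d : Derivation k A A) : TV φ where
  D := φ.toLinearMap ∘ₗ (d : A →ₗ[k] A)
  leib := by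
    intro a b
    change φ (d (a * b)) = φ a * φ (d b) + φ b * φ (d a)
    rw [Derivation.leibniz, smul_eq_mul, smul_eq_mul, map_add, map_mul, map_mul]

lemma ofDer_D {A : Type u} [CommRing A] [Algebra k A] {κ : Type u} [Field κ] [Algebra k κ]
    (φ : A →ₐ[k] κ) (d : Derivation k A A) (a : A) : (ofDer φ d).D a = φ (d a) := rfl

theorem main (hrank : S_rank.{u}) : S_par.{u} := by
  intro k E _ _ _ _ htr A O hA hO
  have hsm := hA.sm
  have hft : Algebra.FiniteType k A := inferInstance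
  have hmax := hO.isMaximal
  let _ : Field (A ⧸ hO.mx) := Ideal.Quotient.field hO.mx
  let φ : A →ₐ[k] A ⧸ hO.mx := Ideal.Quotient.mkₐ k hO.mx
  have hφ : Function.Surjective φ := Ideal.Quotient.mk_surjective
  have hφ0 : ∀ a : A, φ a = 0 ↔ NU O (a : E) := fun a => Ideal.Quotient.eq_zero_iff_mem
  have halg : Algebra.IsAlgebraic k (A ⧸ hO.mx) := by
    refine ⟨fun x => ?_⟩
    obtain ⟨a, rfl⟩ := hφ x
    obtain ⟨P, hP, h1⟩ := hO.alg a (hO.le a.2)
    refine ⟨P, hP, ?_⟩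
    rw [Polynomial.aeval_algHom_apply φ a P, hφ0]
    have e : ((aeval a P : A) : E) = aeval (a : E) P :=
      (Polynomial.aeval_algHom_apply A.val a P).symm
    rw [e]
    exact h1
  obtain ⟨u, v, D1, D2, hu, hv, h1, h2, h3, h4, h5⟩ :=
    exists_dual φ hφ (hrank k E htr A hA (A ⧸ hO.mx) φ)
  obtain ⟨g2, hg2, hg2'⟩ := exists_gen φ hφ hu hv h1 h2 h3 h4 h5
  obtain ⟨d1, d2, hd⟩ := exists_ders φ hu hv h1 h3 h4
  let g1 : A := d1 u * d2 v - d1 v * d2 u
  let g : A := g1 * g2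
  have hg : φ g ≠ 0 := by
    change φ (g1 * g2) ≠ 0
    rw [map_mul]
    exact mul_ne_zero hd hg2
  have hgO : (g : E) ≠ 0 ∧ (g : E)⁻¹ ∈ O := (not_NU_iff (hO.le g.2)).1 fun h => hg ((hφ0 g).2 h)
  have hg20 : (g2 : E) ≠ 0 := fun h => hgO.1 (by
    change ((g1 * g2 : A) : E) = 0
    rw [Subalgebra.coe_mul, h, mul_zero])
  have hg10 : (g1 : E) ≠ 0 := fun h => hgO.1 (by
    change ((g1 * g2 : A) : E) = 0
    rw [Subalgebra.coe_mul, h, zero_mul])
  have hginv : (g2 : E)⁻¹ = g1 * (g : E)⁻¹ := by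
    change (g2 : E)⁻¹ = g1 * ((g1 * g2 : A) : E)⁻¹
    rw [Subalgebra.coe_mul]
    field_simp
  have hle : adj A (g : E)⁻¹ ≤ O := adj_le hO.le hgO.2
  have hcoord : Coord (adj A (g : E)⁻¹) (u : E) (v : E) := by
    intro huA hvA κ _ _ ψ
    let ψ0 : A →ₐ[k] κ := ψ.comp (Subalgebra.inclusion (le_adj A (g : E)⁻¹))
    have hψ0 : ∀ a : A, ψ ⟨a, le_adj A _ a.2⟩ = ψ0 a := fun a => rfl
    have hdet : ψ0 g1 ≠ 0 := by
      intro h0
      have h6 : ψ ⟨g, le_adj A _ g.2⟩ * ψ ⟨(g : E)⁻¹, self_mem_adj A _⟩ = 1 := by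
        rw [← map_mul, ← map_one ψ]
        congr 1
        exact Subtype.ext (mul_inv_cancel₀ hgO.1)
      rw [hψ0 g] at h6
      change ψ0 (g1 * g2) * _ = 1 at h6
      rw [map_mul, h0, zero_mul, zero_mul] at h6
      exact zero_ne_one h6
    obtain ⟨F1, hF1⟩ := TV.ext_loc g.2 hgO.1 ψ ψ0 hψ0 (ofDer ψ0 d1)
    obtain ⟨F2, hF2⟩ := TV.ext_loc g.2 hgO.1 ψ ψ0 hψ0 (ofDer ψ0 d2)
    have hdet' : ψ0 g1 = ψ0 (d1 u) * ψ0 (d2 v) - ψ0 (d1 v) * ψ0 (d2 u) := by
      change ψ0 (d1 u * d2 v - d1 v * d2 u) = _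
      rw [map_sub, map_mul, map_mul]
    refine ⟨TV.comb (ψ0 (d2 v) / ψ0 g1) (-(ψ0 (d1 v) / ψ0 g1)) F1 F2,
      TV.comb (-(ψ0 (d2 u) / ψ0 g1)) (ψ0 (d1 u) / ψ0 g1) F1 F2, ?_, ?_, ?_, ?_⟩
    · rw [TV.comb_D, hF1 _ u.2, hF2 _ u.2, ofDer_D, ofDer_D]
      change ψ0 (d2 v) / ψ0 g1 * ψ0 (d1 u) + -(ψ0 (d1 v) / ψ0 g1) * ψ0 (d2 u) = 1
      field_simp
      rw [hdet']
      ring
    · rw [TV.comb_D, hF1 _ v.2, hF2 _ v.2, ofDer_D, ofDer_D]
      change ψ0 (d2 v) / ψ0 g1 * ψ0 (d1 v) + -(ψ0 (d1 v) / ψ0 g1) * ψ0 (d2 v) = 0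
      ring
    · rw [TV.comb_D, hF1 _ u.2, hF2 _ u.2, ofDer_D, ofDer_D]
      change -(ψ0 (d2 u) / ψ0 g1) * ψ0 (d1 u) + ψ0 (d1 u) / ψ0 g1 * ψ0 (d2 u) = 0
      ring
    · rw [TV.comb_D, hF1 _ v.2, hF2 _ v.2, ofDer_D, ofDer_D]
      change -(ψ0 (d2 u) / ψ0 g1) * ψ0 (d1 v) + ψ0 (d1 u) / ψ0 g1 * ψ0 (d2 v) = 1
      field_simp
      rw [hdet']
      ring
  have hspan : ∀ x : A, NU O (x : E) → ∃ a b : A, (g2 : E) * x = a * u + b * v := by
    intro x hx
    have h6 := hg2' x ((hφ0 x).2 hx)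
    obtain ⟨a, b, h7⟩ := Ideal.mem_span_pair.1 h6
    refine ⟨a, b, ?_⟩
    have := congrArg (Subtype.val : A → E) h7
    exact this.symm
  have hsm' : Algebra.Smooth k (adj A (g : E)⁻¹) := smooth_adj_inv g.2 hgO.1
  refine ⟨u, v, g, u.2, v.2, g.2, hgO.1, hgO.2, ?_, hcoord, ?_⟩
  · refine ⟨(hφ0 u).1 hu, (hφ0 v).1 hv, ?_, ?_, ?_, ?_⟩
    · intro h0
      have : u = 0 := Subtype.ext h0
      rw [this, map_zero] at h1
      exact zero_ne_one h1
    · intro h0
      have : v = 0 := Subtype.ext h0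
      rw [this, map_zero] at h4
      exact zero_ne_one h4
    · intro x hx
      obtain ⟨a, ha, b, hb, hb0, hbi, rfl⟩ := hO.frac x hx.1
      have h6 : NU O a := by
        have := hx.mul_right (hO.le hb)
        rwa [inv_mul_cancel_right₀ hb0] at this
      obtain ⟨c, d, h7⟩ := hspan ⟨a, ha⟩ h6
      have hg2O : (g2 : E)⁻¹ ∈ O := by
        rw [hginv]
        exact O.mul_mem (hO.le g1.2) hgO.2
      refine ⟨c * (g2 : E)⁻¹ * b⁻¹, O.mul_mem (O.mul_mem (hO.le c.2) hg2O) hbi,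
        d * (g2 : E)⁻¹ * b⁻¹, O.mul_mem (O.mul_mem (hO.le d.2) hg2O) hbi, ?_⟩
      change (g2 : E) * a = c * u + d * v at h7
      field_simp
      linear_combination h7
    · intro b hb c hc h6
      obtain ⟨b1, hb1, s, hs, hs0, hsi, rfl⟩ := hO.frac b hb
      obtain ⟨c1, hc1, t, ht, ht0, hti, rfl⟩ := hO.frac c hc
      have h7 : (u : E) * (b1 * t) = v * (c1 * s) := by
        field_simp at h6
        linear_combination h6
      let A' := adj A (g : E)⁻¹
      have hu' : (u : E) ∈ A' := le_adj A _ u.2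
      have hv' : (v : E) ∈ A' := le_adj A _ v.2
      have hc' : c1 * s ∈ A' := le_adj A _ (A.mul_mem hc1 hs)
      have hb' : b1 * t ∈ A' := le_adj A _ (A.mul_mem hb1 ht)
      obtain ⟨d, hd⟩ := dvd_of_dvd_mul (A := A') ⟨v, hv'⟩ ⟨u, hu'⟩ (by
        intro κ _ _ ψ hψ
        obtain ⟨F1, F2, e1, e2, e3, e4⟩ := hcoord hu' hv' κ ψ
        exact ⟨F1, by rw [e1]; exact one_ne_zero⟩) (by
        intro κ _ _ ψ hψ hψ'
        obtain ⟨F1, F2, e1, e2, e3, e4⟩ := hcoord hu' hv' κ ψ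
        exact ⟨F2, by rw [e4]; exact one_ne_zero, e3⟩) ⟨c1 * s, hc'⟩ ⟨⟨b1 * t, hb'⟩, Subtype.ext h7.symm⟩
      have hd' : c1 * s = u * (d : E) := congrArg Subtype.val hd
      refine ⟨d * s⁻¹ * t⁻¹, O.mul_mem (O.mul_mem (hle d.2) hsi) hti, ?_⟩
      field_simp
      linear_combination hd'
  · intro x hx hxO
    obtain ⟨n, hn⟩ := (mem_adj_inv g.2 hgO.1).1 hx
    have h6 : NU O (x * (g : E) ^ n) := hxO.mul_right (O.pow_mem (hO.le g.2) n)
    obtain ⟨a, b, h7⟩ := hspan ⟨_, hn⟩ h6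
    change (g2 : E) * (x * (g : E) ^ n) = a * u + b * v at h7
    have hi : (g : E)⁻¹ ∈ adj A (g : E)⁻¹ := self_mem_adj A _
    refine ⟨a * (g1 * (g : E)⁻¹ * (g : E)⁻¹ ^ n), (adj A _).mul_mem (le_adj A _ a.2)
      ((adj A _).mul_mem ((adj A _).mul_mem (le_adj A _ g1.2) hi) ((adj A _).pow_mem hi n)),
      b * (g1 * (g : E)⁻¹ * (g : E)⁻¹ ^ n), (adj A _).mul_mem (le_adj A _ b.2)
      ((adj A _).mul_mem ((adj A _).mul_mem (le_adj A _ g1.2) hi) ((adj A _).pow_mem hi n)), ?_⟩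
    rw [← hginv]
    have hgn : (g : E) ^ n ≠ 0 := pow_ne_zero n hgO.1
    rw [inv_pow]
    field_simp
    linear_combination h7

theorem main' : S_par := main SR.main

end Pool.Agent.W418.SP
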